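import Pool.Agent.Helper32.OIP.Goals

set_option autoImplicit false

/-! OIP, packet O6b. -/

open MeasureTheory

namespace Pool.Agent.Helper30.OIP

open Pool.Agent.Helper32.OIP Pool.Agent.Helper58.Orb

/-- The structure map along an edge and back. -/
lemma lab_edge (hO1 : GoalO1) {A B : Type} [Group A] [Group B] [Countable A]
    [Countable B] {S : Set A} {S' : Set B} {D L : Type} [Fintype D] [Fintype L]
    (T : TreeData A S D) (T' : TreeData B S' L) (e₀ : D ≃ L) (Φ : Bern A → Bern B)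
    (h : OrbitIsometry S S' Φ) :
    ∀ᵐ x ∂(bern A), ∀ s, lab T T' e₀ Φ (shift (T.dir s) x) (T.inv s) =
      T'.inv (lab T T' e₀ Φ x s) := by
  obtain ⟨-, h2, -⟩ := hO1 A B S S' D L T T' e₀ Φ h
  have hfree : ∀ᵐ x ∂(bern A), ∀ g : B, shift g (Φ x) = Φ x → g = 1 :=
    h.measurePreserving.quasiMeasurePreserving.ae ae_free
  filter_upwards [ae_forall_shift h2, h2, hfree] with x hx1 hx2 hx3 s
  have e1 := hx1 (T.dir s) (T.inv s)
  rw [T.dir_inv, shift_inv_shift, hx2 s, ← shift_mul] at e1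
  have e2 := hx3 _ e1.symm
  apply T'.inj
  rw [T'.dir_inv]
  exact eq_inv_of_mul_eq_one_left e2

lemma fs_mp (hMA1 : GoalMA1) (hS0 : GoalS0) (A : Type) (q : ℝ) (h0 : 0 ≤ q) (h1 : q ≤ 1) :
    MeasurePreserving (fs : (A → E0) → Bern A) (pm A (nu q)) (bern A) := by
  obtain ⟨hp, hp', -, -⟩ := (hS0 hMA1).1 q h0 h1
  have := hMA1.1 A E0 unitInterval (nu q) volume (fun _ => Prod.fst)
    (fun _ => measurePreserving_fst)
  exact this

lemma fs_sh {A N : Type} [Group A] (g : A) (z : A → unitInterval × N) :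
    fs (sh g z) = shift g (fs z) := rfl

theorem o6b : GoalO6b := by
  intro hR0 hO1 hO2 hO3 hO4 hO5 hMA1 hMA2 hS0 A B _ _ _ _ S S' D L _ _ _ T T' e₀ Φ Ψ hI q h0 h1
  have hI' : IsoPair S' S Ψ Φ := ⟨hI.isoR, hI.isoL, hI.right, hI.left⟩
  obtain ⟨hp, hp', -, hJb⟩ := (hS0 hMA1).1 q h0 h1
  obtain ⟨-, -, hsh⟩ := hS0 hMA1
  obtain ⟨-, hb, hms⟩ := hO2 hR0 hO1 A B S S' D L T T' e₀ Φ hI.isoL
  have hTh : MeasurePreserving (Th Φ : (A → E0) → (B → E0)) (pm A (nu q)) (pm B (nu q)) :=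
    hO4 hMA1 hMA2 A B Nz (nz q) Φ hI.isoL.measurePreserving (hb.mono fun x hx => hx.1) hms
  have hw : MeasurePreserving (fun z : A → E0 => Jb (Th Φ z)) (pm A (nu q)) (pm B (nu q)) :=
    (hJb B).comp hTh
  have e1 : ∀ᵐ z ∂(pm A (nu q)), ∀ s,
      Th Φ (sh (T.dir s) z) = sh (T'.dir (lab T T' e₀ Φ (fs z) s)) (Th Φ z) :=
    (hO5 hR0 hO1 hO2 hO3 hMA1 A B Nz (nz q) S S' D L T T' e₀ Φ Ψ hI).2
  have e2 : ∀ᵐ w ∂(pm B (nu q)), ∀ l,
      Th Ψ (sh (T'.dir l) w) = sh (T.dir (lab T' T e₀.symm Ψ (fs w) l)) (Th Ψ w) :=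
    (hO5 hR0 hO1 hO2 hO3 hMA1 B A Nz (nz q) S' S L D T' T e₀.symm Ψ Φ hI').2
  have e2' := hw.quasiMeasurePreserving.ae e2
  have key : ∀ z : A → E0, ∀ s, Th Φ (sh (T.dir s) z) =
      sh (T'.dir (lab T T' e₀ Φ (fs z) s)) (Th Φ z) →
      Jb (Th Φ (sh (T.dir s) z)) = sh (T'.dir (lab T T' e₀ Φ (fs z) s)) (Jb (Th Φ z)) := by
    intro z s hz
    rw [hz, hsh]
  refine ⟨?_, ?_⟩
  · filter_upwards [e1, e2'] with z hz1 hz2 s
    change Th Ψ (Jb (Th Φ (sh (T.dir s) z))) = _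
    rw [key z s (hz1 s)]
    exact hz2 _
  · have f1 : ∀ᵐ z ∂(pm A (nu q)), ∀ s,
        lab T T' e₀ Φ (shift (T.dir s) (fs z)) (T.inv s) = T'.inv (lab T T' e₀ Φ (fs z) s) :=
      (fs_mp hMA1 hS0 A q h0 h1).quasiMeasurePreserving.ae (lab_edge hO1 T T' e₀ Φ hI.isoL)
    have f2 : ∀ᵐ w ∂(pm B (nu q)), ∀ l,
        lab T' T e₀.symm Ψ (shift (T'.dir l) (fs w)) (T'.inv l) =
          T.inv (lab T' T e₀.symm Ψ (fs w) l) :=
      (fs_mp hMA1 hS0 B q h0 h1).quasiMeasurePreserving.ae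
        (lab_edge hO1 T' T e₀.symm Ψ hI'.isoL)
    have f2' := hw.quasiMeasurePreserving.ae f2
    filter_upwards [e1, f1, f2'] with z hz1 hz2 hz3 s
    change lab T' T e₀.symm Ψ (fs (Jb (Th Φ (sh (T.dir s) z))))
      (lab T T' e₀ Φ (shift (T.dir s) (fs z)) (T.inv s)) = _
    rw [hz2 s, key z s (hz1 s), fs_sh]
    exact hz3 _

end Pool.Agent.Helper30.OIP
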